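import Mathlib
import Pool.Agent.H.MP_58c1a9_gt.A

namespace Pool.Agent.Results.MP_58c1a9_gt.Exists

open ExteriorAlgebra Matrix Module Pool.Agent.H.MP_58c1a9_gt

/-- Gram matrix of ten hyperbolic planes -/
def Hyp : Matrix (Fin 10 × Fin 2) (Fin 10 × Fin 2) ℤ :=
  of fun p q => if p.1 = q.1 ∧ p.2 ≠ q.2 then 1 else 0

/-- the pairing `x y ω = B(x, y) vol` on the submodule `S` has Gram matrix `G` in some basis -/
def HasGram {A J : Type} [Ring A] [Algebra ℤ A] (S : Submodule ℤ A) (vol ω : A)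
    (G : Matrix J J ℤ) : Prop :=
  ∃ b : Basis J ℤ S, ∀ m n, (b m).1 * (b n).1 * ω = algebraMap ℤ A (G m n) * vol

section

variable (V : Type) [AddCommGroup V] [Module ℤ V]

/-- the `n`-th exterior power inside the exterior algebra -/
def Λ (n : ℕ) : Submodule ℤ (ExteriorAlgebra ℤ V) := ⋀[ℤ]^n V

variable {V}

/-- the exterior product of eight vectors -/
def vol (v : Fin 8 → V) : ExteriorAlgebra ℤ V := (List.ofFn fun i => ι ℤ (v i)).prod

/-- some `ω` of degree four has a pairing with Gram matrix `G` -/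
def Realised {J : Type} (v : Fin 8 → V) (G : Matrix J J ℤ) : Prop :=
  ∃ ω ∈ Λ V 4, HasGram (Λ V 2) (vol v) ω G

end

/-- Gram matrix of `E₈ ⊕ 10 H` -/
def T : Matrix (Fin 8 ⊕ Fin 10 × Fin 2) (Fin 8 ⊕ Fin 10 × Fin 2) ℤ :=
  fromBlocks CartanMatrix.E₈ 0 0 Hyp

def T' : Matrix (Fin 8 ⊕ Fin 10 × Fin 2) (Fin 8 ⊕ Fin 10 × Fin 2) ℤ :=
  fromBlocks !![4, 5, 7, 10, 8, 6, 4, 2; 5, 8, 10, 15, 12, 9, 6, 3; 7, 10, 14, 20, 16, 12, 8, 4;
    10, 15, 20, 30, 24, 18, 12, 6; 8, 12, 16, 24, 20, 15, 10, 5; 6, 9, 12, 18, 15, 12, 8, 4;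
    4, 6, 8, 12, 10, 8, 6, 3; 2, 3, 4, 6, 5, 4, 3, 2] 0 0 Hyp

def e : Fin 8 ⊕ Fin 10 × Fin 2 → Fin 28
  | .inl i => ⟨i, by omega⟩
  | .inr p => ⟨8 + 2 * p.1 + p.2, by omega⟩

lemma hT : ∀ m n, (PB * Pᵀ) (e m) (e n) = T m n := by decide +kernel
lemma hT' : T * T' = 1 := by decide +kernel
lemma he : ∀ a, ∃ m, e m = a := by decide +kernel
lemma hpr : ∀ i j : Fin 8, i < j → ∃ a, pr a = (i.val, j.val) := by decide +kernel
lemma hom : ∀ p ∈ om, p.2.length = 4 := by decide +kernel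

lemma x_eq (i : Fin 8) : x i = ι ℤ (Pi.single i 1) := by
  unfold x
  congr 1
  funext k
  simp [Pi.single_apply, Fin.ext_iff]

lemma top : w (List.range 8) = ιMulti ℤ 8 fun i => Pi.single i 1 := by
  simp only [ιMulti_apply, ← x_eq]
  rfl

lemma w_mem (l : List ℕ) : w l ∈ ⋀[ℤ]^l.length V := by
  induction l with
  | nil => exact Submodule.one_le.1 le_rfl
  | cons j l ih =>
    rw [List.length_cons, exteriorPower, pow_succ']
    exact Submodule.mul_mem_mul (LinearMap.mem_range_self _ _) ih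

lemma y_mem (a : Fin 28) : y a ∈ ⋀[ℤ]^2 V := by
  simpa [w, y] using w_mem [(pr a).1, (pr a).2]

def b (m : Fin 28) : ⋀[ℤ]^2 V :=
  ⟨∑ a, P m a • y a, Submodule.sum_mem _ fun a _ => Submodule.smul_mem _ _ (y_mem a)⟩

lemma gram (m n : Fin 8 ⊕ Fin 10 × Fin 2) :
    (b (e m)).1 * (b (e n)).1 * ev om = T m n • w (List.range 8) := by
  rw [← hT, ← hPB]
  simp only [b, Finset.sum_mul, Finset.mul_sum, smul_mul_assoc, mul_smul_comm, y_mul, smul_smul,
    ← Finset.sum_smul, mul_apply, transpose_apply]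
  congr 1
  exact Finset.sum_congr rfl fun _ _ => Finset.sum_congr rfl fun _ _ => by ring

lemma li : LinearIndependent ℤ (b ∘ e) := by
  refine Fintype.linearIndependent_iff.2 fun c hc => ?_
  have h (n) : (c ᵥ* T) n = 0 := by
    have h1 := congrArg (fun z : ⋀[ℤ]^2 V => liftAlternating (R := ℤ) (N := ℤ)
      (Pi.single 8 (Pi.basisFun ℤ (Fin 8)).det) (z.1 * (b (e n)).1 * ev om)) hc
    simp only [Submodule.coe_sum, Submodule.coe_smul, Finset.sum_mul, smul_mul_assoc,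
      Function.comp, gram, map_sum, map_smul, top, liftAlternating_apply_ιMulti, Pi.single_eq_same,
      ← Pi.basisFun_apply, Basis.det_self] at h1
    simpa [vecMul, dotProduct] using h1
  have : c = c ᵥ* T ᵥ* T' := by rw [vecMul_vecMul, hT', vecMul_one]
  rw [this, funext h]
  exact congrFun (zero_vecMul _)

lemma sp : ⊤ ≤ Submodule.span ℤ (Set.range (b ∘ e)) := by
  let S := (Submodule.span ℤ (Set.range (b ∘ e))).map (⋀[ℤ]^2 V).subtype
  have h1 (a) : y a ∈ S := by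
    have : y a = ∑ m, Q a m • (b m).1 := by
      simp only [b, Finset.smul_sum, smul_smul]
      rw [Finset.sum_comm]
      simp [← Finset.sum_smul, ← mul_apply, hQP, one_apply, -zsmul_eq_mul]
    rw [this]
    refine S.sum_mem fun m _ => S.smul_mem _ ⟨b m, Submodule.subset_span ?_, rfl⟩
    obtain ⟨n, rfl⟩ := he m
    exact ⟨n, rfl⟩
  have h2 (i j : Fin 8) (h : i < j) : x i * x j ∈ S := by
    obtain ⟨a, ha⟩ := hpr i j h
    simpa [y, ha] using h1 a
  have h3 : ⋀[ℤ]^2 V ≤ S := by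
    rw [← exteriorPower.ιMulti_span_fixedDegree_of_span_eq_top ℤ 2 V (Pi.basisFun ℤ (Fin 8)).span_eq,
      Submodule.span_le]
    rintro _ ⟨v, hv, rfl⟩
    obtain ⟨i, hi⟩ := hv ⟨0, rfl⟩
    obtain ⟨j, hj⟩ := hv ⟨1, rfl⟩
    have : ιMulti ℤ 2 v = x i * x j := by simp [ιMulti_apply, x_eq, ← hi, ← hj, vecTail]
    rw [this]
    rcases lt_trichotomy i j with h | rfl | h
    · exact h2 i j h
    · simp [x]
    · rw [show x i * x j = -(x j * x i) from eq_neg_of_add_eq_zero_left (ι_add_mul_swap _ _)]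
      exact S.neg_mem (h2 j i h)
  intro z _
  obtain ⟨z', hz, e⟩ := h3 z.2
  exact Subtype.ext e ▸ hz

theorem result : Realised (fun i : Fin 8 => (Pi.single i 1 : Fin 8 → ℤ)) T := by
  refine ⟨ev om, list_sum_mem fun z hz => ?_, Basis.mk li sp, fun m n => ?_⟩
  · obtain ⟨p, hp, rfl⟩ := List.mem_map.1 hz
    exact Submodule.smul_mem _ _ (hom p hp ▸ w_mem p.2)
  · have := gram m n
    rw [top, Algebra.smul_def] at this
    rw [Basis.mk_apply, Basis.mk_apply]
    exact this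

end Pool.Agent.Results.MP_58c1a9_gt.Exists
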